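import Mathlib

set_option autoImplicit false

namespace Pool.Agent.Results.MP_3c8d56_co.CoverNotSelfClique

open SimpleGraph

/-- the clique graph: vertices are the maximal cliques, adjacent when distinct and intersecting -/
def cliqueGraph {V : Type} (G : SimpleGraph V) : SimpleGraph {K : Set V // Maximal G.IsClique K} where
  Adj K L := K ≠ L ∧ (K.1 ∩ L.1).Nonempty
  symm := ⟨fun _ _ h => ⟨h.1.symm, by rw [Set.inter_comm]; exact h.2⟩⟩
  loopless := ⟨fun _ h => h.1 rfl⟩

/-- the `n`-th iterated clique graph, as a vertex type together with a graph -/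
def iter : ℕ → (Σ V : Type, SimpleGraph V) → (Σ V : Type, SimpleGraph V)
  | 0, G => G
  | n + 1, G => ⟨_, cliqueGraph (iter n G).2⟩

/-- `p` is a triangular covering map: a homomorphism of connected graphs restricting to an
isomorphism from every closed neighbourhood onto the closed neighbourhood of the image -/
def IsTriCover {W V : Type} (H : SimpleGraph W) (G : SimpleGraph V) (p : H →g G) : Prop :=
  H.Connected ∧ G.Connected ∧ ∀ w : W,
    Set.BijOn p (insert w (H.neighborSet w)) (insert (p w) (G.neighborSet (p w))) ∧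
    ∀ x ∈ insert w (H.neighborSet w), ∀ y ∈ insert w (H.neighborSet w),
      (H.Adj x y ↔ G.Adj (p x) (p y))

def gr {n : ℕ} (c : Fin n → Finset (Fin n)) : SimpleGraph (Fin n) where
  Adj u v := u ≠ v ∧ ∃ i, u ∈ c i ∧ v ∈ c i
  symm := ⟨fun _ _ ⟨h, i, h1, h2⟩ => ⟨h.symm, i, h2, h1⟩⟩
  loopless := ⟨fun _ h => h.1 rfl⟩

def ig {n : ℕ} (c : Fin n → Finset (Fin n)) : SimpleGraph (Fin n) where
  Adj i j := i ≠ j ∧ ∃ u, u ∈ c i ∧ u ∈ c j
  symm := ⟨fun _ _ ⟨h, i, h1, h2⟩ => ⟨h.symm, i, h2, h1⟩⟩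
  loopless := ⟨fun _ h => h.1 rfl⟩

instance {n : ℕ} (c : Fin n → Finset (Fin n)) : DecidableRel (gr c).Adj :=
  fun u v => inferInstanceAs (Decidable (u ≠ v ∧ ∃ i, u ∈ c i ∧ v ∈ c i))

instance {n : ℕ} (c : Fin n → Finset (Fin n)) : DecidableRel (ig c).Adj :=
  fun i j => inferInstanceAs (Decidable (i ≠ j ∧ ∃ u, u ∈ c i ∧ u ∈ c j))

theorem kiso {n : ℕ} [NeZero n] (c : Fin n → Finset (Fin n))
    (h1 : ∀ i x, x ∉ c i → ∃ a ∈ c i, ¬ (gr c).Adj a x)
    (h2 : ∀ x, ∃ i, x ∈ c i)
    (h3 : ∀ i, ∀ x ∈ c i, ∀ y ∈ c i, x ≠ y → ∀ z, (gr c).Adj x z → (gr c).Adj y z → z ∈ c i)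
    (h4 : Function.Injective c) : Nonempty (ig c ≃g cliqueGraph (gr c)) := by
  have cl : ∀ i, (gr c).IsClique (c i : Set (Fin n)) :=
    fun i a ha b hb hab => ⟨hab, i, ha, hb⟩
  have mx : ∀ i, Maximal (gr c).IsClique (c i : Set (Fin n)) := by
    intro i
    refine ⟨cl i, fun T hT hsub x hx => ?_⟩
    by_contra hxi
    obtain ⟨a, ha, hax⟩ := h1 i x hxi
    exact hax (hT (hsub ha) hx (by rintro rfl; exact hxi ha))
  have sub : ∀ K : Set (Fin n), (gr c).IsClique K → ∃ i, K ⊆ c i := by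
    intro K hK
    by_cases hs : K.Subsingleton
    · rcases hs.eq_empty_or_singleton with rfl | ⟨x, rfl⟩
      · exact ⟨0, Set.empty_subset _⟩
      · obtain ⟨i, hi⟩ := h2 x
        exact ⟨i, by simpa using hi⟩
    · obtain ⟨x, hx, y, hy, hxy⟩ := Set.not_subsingleton_iff.mp hs
      obtain ⟨-, i, hxi, hyi⟩ := hK hx hy hxy
      refine ⟨i, fun z hz => ?_⟩
      by_cases e1 : x = z
      · exact e1 ▸ hxi
      by_cases e2 : y = z
      · exact e2 ▸ hyi
      exact h3 i x hxi y hyi hxy z (hK hx hz e1) (hK hy hz e2)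
  let f : Fin n → {K : Set (Fin n) // Maximal (gr c).IsClique K} := fun i => ⟨c i, mx i⟩
  have finj : Function.Injective f := fun i j h =>
    h4 (Finset.coe_injective (congrArg Subtype.val h))
  have fs : Function.Surjective f := by
    intro K
    obtain ⟨i, hi⟩ := sub K.1 K.2.1
    exact ⟨i, Subtype.ext (Set.Subset.antisymm (K.2.2 (cl i) hi) hi)⟩
  refine ⟨⟨Equiv.ofBijective f ⟨finj, fs⟩, ?_⟩⟩
  intro i j
  change (f i ≠ f j ∧ ((c i : Set (Fin n)) ∩ c j).Nonempty) ↔ (i ≠ j ∧ ∃ u, u ∈ c i ∧ u ∈ c j)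
  rw [finj.ne_iff]
  rfl

def c8 : Fin 8 → Finset (Fin 8) := ![{0, 1}, {1, 2}, {2, 3}, {3, 0}, {0, 4, 5}, {5, 6}, {6, 7}, {7, 4}]

def c16 : Fin 16 → Finset (Fin 16) := ![{0, 1}, {1, 2}, {2, 3}, {3, 8}, {0, 4, 5}, {5, 6}, {6, 7}, {7, 4}, {8, 9}, {9, 10}, {10, 11}, {11, 0}, {8, 12, 13}, {13, 14}, {14, 15}, {15, 12}]

def tg (u v : Fin 16) : Bool := (36186132174607351902348359433178119910784576655744013234810829949652091340850 : ℕ).testBit (16 * u.val + v.val)

def ti (u v : Fin 16) : Bool := (36186132174502039660898148625114511095052430139785705914302224222019645671442 : ℕ).testBit (16 * u.val + v.val)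

theorem hg : ∀ u v, (gr c16).Adj u v ↔ tg u v = true := by decide +kernel

theorem hi : ∀ u v, (ig c16).Adj u v ↔ ti u v = true := by decide +kernel

def pr : gr c16 →g gr c8 where
  toFun x := ⟨x.val % 8, Nat.mod_lt _ (by norm_num)⟩
  map_rel' := by decide +kernel

theorem conn16 : (gr c16).Connected := by
  have r : ∀ u v, tg u v = true → (gr c16).Reachable u v := fun u v h => ((hg u v).mpr h).reachable
  have s : ∀ k : Fin 16, (gr c16).Reachable 0 k := by
    have h1 := r 0 1 (by decide +kernel)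
    have h2 := h1.trans (r 1 2 (by decide +kernel))
    have h3 := h2.trans (r 2 3 (by decide +kernel))
    have h8 := h3.trans (r 3 8 (by decide +kernel))
    have h9 := h8.trans (r 8 9 (by decide +kernel))
    have h10 := h9.trans (r 9 10 (by decide +kernel))
    have h11 := h10.trans (r 10 11 (by decide +kernel))
    have h4 := r 0 4 (by decide +kernel)
    have h5 := r 0 5 (by decide +kernel)
    have h6 := h5.trans (r 5 6 (by decide +kernel))
    have h7 := h6.trans (r 6 7 (by decide +kernel))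
    have h12 := h8.trans (r 8 12 (by decide +kernel))
    have h13 := h8.trans (r 8 13 (by decide +kernel))
    have h14 := h13.trans (r 13 14 (by decide +kernel))
    have h15 := h14.trans (r 14 15 (by decide +kernel))
    intro k
    fin_cases k
    exacts [Reachable.refl _, h1, h2, h3, h4, h5, h6, h7, h8, h9, h10, h11, h12, h13, h14, h15]
  exact ⟨fun u v => (s u).symm.trans (s v)⟩

theorem cover : IsTriCover (gr c16) (gr c8) pr := by
  refine ⟨conn16, by decide +kernel, fun w => ⟨⟨?_, ?_, ?_⟩, ?_⟩⟩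
  · have : ∀ w x, (x = w ∨ (gr c16).Adj w x) → (pr x = pr w ∨ (gr c8).Adj (pr w) (pr x)) := by
      decide +kernel
    exact fun x hx => this w x hx
  · have : ∀ w x, (x = w ∨ (gr c16).Adj w x) → ∀ y, (y = w ∨ (gr c16).Adj w y) → pr x = pr y →
      x = y := by simp only [hg]; decide +kernel
    exact fun x hx y hy => this w x hx y hy
  · have : ∀ w y, (y = pr w ∨ (gr c8).Adj (pr w) y) → ∃ x, (x = w ∨ (gr c16).Adj w x) ∧
      pr x = y := by decide +kernel
    exact fun y hy => this w y hy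
  · have : ∀ w x, (x = w ∨ (gr c16).Adj w x) → ∀ y, (y = w ∨ (gr c16).Adj w y) →
      ((gr c16).Adj x y ↔ (gr c8).Adj (pr x) (pr y)) := by simp only [hg]; decide +kernel
    exact fun x hx y hy => this w x hx y hy

def iso8 : ig c8 ≃g gr c8 where
  toFun := ![4, 7, 6, 5, 0, 1, 2, 3]
  invFun := ![4, 5, 6, 7, 0, 3, 2, 1]
  left_inv := by decide
  right_inv := by decide
  map_rel_iff' := by decide +kernel

theorem noiso : IsEmpty (gr c16 ≃g ig c16) := by
  refine ⟨fun f => ?_⟩
  have key : ∀ s t, (ig c16).Adj s t → ∀ a, (ig c16).Adj a s → (ig c16).Adj a t →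
      ∀ u, (ig c16).Adj t u → u ≠ s → u ≠ a → ∀ v, (ig c16).Adj u v → (ig c16).Adj v s →
      v = t ∨ v = a := by simp only [hi]; decide +kernel
  have a : ∀ x y, (gr c16).Adj x y → (ig c16).Adj (f x) (f y) := fun x y h => f.map_adj_iff.mpr h
  have := key (f 4) (f 5) (a _ _ (by decide)) (f 0) (a _ _ (by decide)) (a _ _ (by decide)) (f 6)
    (a _ _ (by decide)) (f.injective.ne (by decide)) (f.injective.ne (by decide)) (f 7)
    (a _ _ (by decide)) (a _ _ (by decide))
  rcases this with h | h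
  · exact absurd (f.injective h) (by decide)
  · exact absurd (f.injective h) (by decide)

/-- A triangular covering map between finite connected graphs and `n ≥ 1` such that
`kⁿ G ≅ G` but `kⁿ H ≇ H` for the covering graph `H`. -/
theorem result :
    ∃ (W V : Type) (_ : Fintype W) (_ : Fintype V) (H : SimpleGraph W) (G : SimpleGraph V)
      (p : H →g G) (n : ℕ), IsTriCover H G p ∧ 1 ≤ n ∧
      Nonempty ((iter n ⟨V, G⟩).2 ≃g G) ∧ IsEmpty ((iter n ⟨W, H⟩).2 ≃g H) := by
  refine ⟨Fin 16, Fin 8, inferInstance, inferInstance, gr c16, gr c8, pr, 1, cover, le_rfl, ?_, ?_⟩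
  · obtain ⟨e⟩ := kiso c8 (by decide +kernel) (by decide +kernel) (by decide +kernel)
      (by decide +kernel)
    exact ⟨e.symm.trans iso8⟩
  · obtain ⟨e⟩ := kiso c16 (by simp only [hg]; decide +kernel) (by decide +kernel)
      (by simp only [hg]; decide +kernel) (by decide +kernel)
    exact ⟨fun f => noiso.false (e.trans f).symm⟩

end Pool.Agent.Results.MP_3c8d56_co.CoverNotSelfClique
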